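import Pool.Agent.H71.CR.Stmt

/-!
# MP_5607ba_lc, board cwr_modules, row DIR: a piece which cannot be split gives a direction with
infinitely many germs.
-/

set_option autoImplicit false

open Set Pool.Agent.TK Pool.Agent.H71.VK

namespace Pool.Agent.CR

/-- Row DIR -/
theorem pf_DIR (hULT : T_ULT) (hCON : T_CON) (hDEC : T_DEC) (hFIA : T_FIA) (hFGZ : T_FGZ) :
    T_DIR := by
  intro n c Sm G
  rw [or_iff_not_imp_left]
  intro hsp
  unfold SpG at hsp
  push Not at hsp
  obtain ⟨π, hv, hg, hno⟩ := hsp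
  refine ⟨π, ?_⟩
  have hult := hULT n c Sm G π hv hg (by
    intro σ S F x hvd
    by_contra h
    rw [not_or] at h
    exact h.2 (hno σ S F x hvd h.1))
  obtain ⟨hcomp, hint, hfin⟩ := hFIA n c G.lb
  have hU : Dirn n c (Dr G π) := by
    constructor
    · exact fun A hA => hA.1
    · intro A hA B hB hAB
      exact ⟨hB, hA.2.mono fun x hx => ⟨hx.1, fun h => hx.2 (hAB h)⟩⟩
    · intro A hA B hB
      refine ⟨hint A B hA.1 hB.1, (hA.2.union hB.2).mono ?_⟩
      intro x hx
      by_cases h : x ∈ A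
      · exact Or.inr ⟨hx.1, fun h' => hx.2 ⟨h, h'⟩⟩
      · exact Or.inl ⟨hx.1, h⟩
    · intro A hA
      rcases hult A hA with h | h
      · right
        refine ⟨hcomp A hA, h.mono ?_⟩
        rintro x ⟨hx, hx2⟩
        rw [Set.notMem_compl_iff] at hx2
        exact ⟨hx, hx2⟩
      · exact Or.inl ⟨hA, h⟩
    · intro A hA hAf
      apply hg
      refine (hA.2.union (G.nn_finite hAf)).mono ?_
      intro x hx
      by_cases h : x ∈ A
      · exact Or.inr h
      · exact Or.inl ⟨hx, h⟩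
  refine ⟨hv, hg, hU, ?_, ?_⟩
  · intro hF
    obtain ⟨E, hE1, hE2⟩ := hFGZ n c G.lb _ hU hF (zl π) (fun x => ∀ a ∈ x, a ∈ st c π)
    refine hCON n c Sm G π hv hg E hE1 ?_
    intro x hx hxs
    obtain ⟨e, he, A, hA, h1⟩ := hE2 x hx hxs
    refine ⟨e, he, st c π \ A, hA.2, h1.1, fun D hD => h1.2 D fun y hy => ?_⟩
    rcases hD y hy with ⟨h2, h3⟩ | h2
    · left
      by_contra h4
      exact h3 ⟨h2, h4⟩
    · exact Or.inr h2
  · rintro A ⟨hA1, hA2⟩
    obtain ⟨s, h1, h2, h3⟩ := hDEC n c Sm G π hv hg A hA1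
    refine ⟨s, h1, h2, ?_⟩
    rcases h3 with h3 | h3
    · exact h3
    · exfalso
      apply h2
      refine hA2.mono fun x hx => ?_
      exact ⟨(st_sub x hx).1, fun hxA => Set.disjoint_left.1 h3 hx hxA⟩

end Pool.Agent.CR
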